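import Pool.Agent.W102.TD.Defs

set_option autoImplicit false

namespace Pool.Agent.W120.TD

open Pool.Agent.W102.TD Finset

/-- the positions of `true` -/
def ps (x : List Bool) : Finset ℕ := (range x.length).filter (fun p => x[p]? = some true)

theorem card_ps : ∀ x : List Bool, (ps x).card = x.count true
  | [] => rfl
  | c :: x => by
    have ih := card_ps x
    unfold ps at ih ⊢
    rw [card_filter] at ih ⊢
    rw [List.length_cons, sum_range_succ', List.count_cons, ← ih]
    cases c <;> simp

theorem ps_spec {x : List Bool} {p : ℕ} (h : p ∈ ps x) :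
    p < x.length ∧ x = x.take p ++ true :: x.drop (p + 1) := by
  unfold ps at h
  rw [mem_filter, mem_range] at h
  obtain ⟨h1, h2⟩ := h
  refine ⟨h1, ?_⟩
  rw [List.getElem?_eq_getElem h1, Option.some.injEq] at h2
  conv_lhs => rw [← List.take_append_drop p x, List.drop_eq_getElem_cons h1, h2]

theorem del : DEL := by
  intro W hW i j
  set A := W.filter (fun u => u.count true = i + 1 ∧ u.count false = j) with hA
  set B := W.filter (fun u => u.count true = i ∧ u.count false = j) with hB
  have h1 : (A.sigma ps).card = (i + 1) * A.card := by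
    rw [card_sigma, sum_congr rfl (fun x hx => (card_ps x).trans (mem_filter.1 hx).2.1), sum_const,
      smul_eq_mul, mul_comm]
  have h2 : (B ×ˢ range (i + j + 1)).card = (i + j + 1) * B.card := by
    rw [card_product, card_range, mul_comm]
  rw [← h1, ← h2]
  apply card_le_card_of_injOn
    (fun z : (Σ _ : List Bool, ℕ) => (z.1.take z.2 ++ z.1.drop (z.2 + 1), z.2))
  · rintro ⟨x, p⟩ hz
    rw [mem_coe, mem_sigma] at hz
    obtain ⟨hx, hp⟩ := hz
    obtain ⟨hx1, hx2, hx3⟩ := mem_filter.1 hx
    obtain ⟨hp1, hp2⟩ := ps_spec hp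
    simp only [] at *
    rw [mem_coe, mem_product, mem_filter, mem_range]
    have hc := List.count_false_add_count_true x
    refine ⟨⟨hW _ _ (hp2 ▸ hx1), ?_, ?_⟩, ?_⟩
    · rw [hp2, List.count_append, List.count_cons_self] at hx2
      rw [List.count_append]
      omega
    · rw [hp2, List.count_append, List.count_cons_of_ne (by decide)] at hx3
      rw [List.count_append]
      omega
    · show p < i + j + 1
      omega
  · rintro ⟨x, p⟩ hz ⟨y, r⟩ hz' he
    rw [mem_coe, mem_sigma] at hz hz'
    obtain ⟨hp1, hp2⟩ := ps_spec hz.2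
    obtain ⟨hr1, hr2⟩ := ps_spec hz'.2
    simp only [Prod.mk.injEq] at he hp1 hp2 hr1 hr2
    obtain ⟨he1, rfl⟩ := he
    have hl : (x.take p).length = (y.take p).length := by
      rw [List.length_take, List.length_take, min_eq_left hp1.le, min_eq_left hr1.le]
    obtain ⟨e1, e2⟩ := List.append_inj he1 hl
    have : x = y := by rw [hp2, hr2, e1, e2]
    subst this
    rfl

end Pool.Agent.W120.TD
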