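import Pool.Agent.W102.TD.Defs

set_option autoImplicit false

namespace Pool.Agent.W120.TD

open Pool.Agent.W102.TD

theorem down_lt : ∀ u w : List Bool, List.Sublist u w → down u w = true →
    u.count true < w.count true
  | [], [], _, h => by simp [down] at h
  | [], _ :: _, _, h => by simp [down] at h
  | _ :: _, [], _, h => by simp [down] at h
  | false :: u, true :: w, hs, _ => by
    have h1 : List.Sublist (false :: u) w := by
      cases hs with
      | cons _ h => exact h
    have h2 := h1.count_le true
    rw [List.count_cons_self]
    omega
  | true :: u, true :: w, hs, h => by
    have h1 := List.cons_sublist_cons.1 hs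
    have h2 := down_lt u w h1 (by simpa [down] using h)
    rw [List.count_cons_self, List.count_cons_self]
    omega
  | false :: u, false :: w, hs, h => by
    have h1 := List.cons_sublist_cons.1 hs
    have h2 := down_lt u w h1 (by simpa [down] using h)
    rw [List.count_cons_of_ne (by decide), List.count_cons_of_ne (by decide)]
    exact h2
  | true :: u, false :: w, _, h => by simp [down] at h

theorem utop : UTOP := by
  intro w u hu
  unfold U at hu
  rw [Finset.mem_filter, List.mem_toFinset, List.mem_sublists] at hu
  obtain ⟨hs, h | h⟩ := hu
  · have h1 := h.count_le true
    rw [List.count_append, List.count_singleton_self] at h1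
    omega
  · exact down_lt u w hs h

end Pool.Agent.W120.TD
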